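import Pool.Agent.Helper54.SP.StmtsP

set_option autoImplicit false

namespace Pool.Agent.Helper54.SP

/-- entries of the list without its largest element -/
theorem alt_lt {n : ℕ} {ρ : ℕ → ℕ} {L : List ℕ} {i : ℕ} (hρ : ∀ i, i < n → ρ i < ρ n)
    (hnd : L.Nodup) (hlt : ∀ x ∈ L, x < n + 1) (hi : i < L.length)
    (hmax : ∀ j ∈ L, ρ j ≤ ρ (L.getD i 0)) : ∀ x ∈ L.eraseIdx i, x < n := by
  intro x hx
  obtain ⟨j, hj, hji, rfl⟩ := List.mem_eraseIdx_iff_getElem.1 hx
  have h1 : L[j] < n + 1 := hlt _ (List.getElem_mem hj)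
  rcases Nat.lt_succ_iff_lt_or_eq.1 h1 with h2 | h2
  · exact h2
  · exfalso
    have h3 : L.getD i 0 = L[i] := List.getD_eq_getElem _ _ hi
    have h4 := hmax _ (List.getElem_mem hj)
    rw [h3] at h4
    have h5 : L[i] < n + 1 := hlt _ (List.getElem_mem hi)
    rcases Nat.lt_succ_iff_lt_or_eq.1 h5 with h6 | h6
    · have := hρ _ h6
      rw [← h2] at this
      omega
    · have : j = i := (List.Nodup.getElem_inj_iff hnd).1 (h2.trans h6.symm)
      exact hji this

theorem st_ALT (hAMX : ST_AMX) : ST_ALT := by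
  intro k n χ ρ hχ hinj hρ l₁ l₂ a b hlen hnd hlt
  set L := l₁ ++ a :: b :: l₂ with hL
  set L' := l₁ ++ b :: a :: l₂ with hL'
  have hperm : L.Perm L' := by
    rw [hL, hL']
    exact List.Perm.append_left l₁ (List.Perm.swap b a l₂)
  have hmem : ∀ x, x ∈ L' ↔ x ∈ L := fun x => hperm.mem_iff.symm
  have hnd' : L'.Nodup := hperm.nodup_iff.1 hnd
  have hlen' : L'.length = k + 1 := hperm.length_eq ▸ hlen
  have hne : L ≠ [] := by rw [hL]; simp
  have hne' : L' ≠ [] := by rw [hL']; simp
  have hinjL : ∀ i ∈ L, ∀ j ∈ L, ρ i = ρ j → i = j := fun i hi j hj h =>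
    hinj i j (Nat.lt_succ_iff.1 (hlt i hi)) (Nat.lt_succ_iff.1 (hlt j hj)) h
  have hinjL' : ∀ i ∈ L', ∀ j ∈ L', ρ i = ρ j → i = j := fun i hi j hj h =>
    hinjL i ((hmem i).1 hi) j ((hmem j).1 hj) h
  obtain ⟨h1, h2, -⟩ := hAMX ρ L hne hnd hinjL
  obtain ⟨-, -, h3⟩ := hAMX ρ L' hne' hnd' hinjL'
  set i := amax ρ L with hi
  have hll : L.length = l₁.length + (l₂.length + 2) := by
    rw [hL, List.length_append]; rfl
  have hmax' : ∀ x, L.getD i 0 = x → ∀ j ∈ L', ρ j ≤ ρ x := by
    intro x hx j hj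
    rw [← hx]
    exact h2 j ((hmem j).1 hj)
  have hlast : ∀ x ∈ L.eraseIdx i, x < n := alt_lt hρ hnd hlt h1 h2
  have hlenE : (L.eraseIdx i).length = k := by
    rw [List.length_eraseIdx_of_lt h1, hlen]; rfl
  have hndE : (L.eraseIdx i).Nodup := hnd.sublist (List.eraseIdx_sublist L i)
  unfold lexs
  rw [hlen', hlen, ← hi]
  rcases lt_trichotomy i l₁.length with hc | hc | hc
  · -- the largest element is in `l₁`
    have e1 : amax ρ L' = i := by
      apply h3 i (by omega)
      apply hmax'
      rw [hL, hL', List.getD_append _ _ _ _ hc, List.getD_append _ _ _ _ hc]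
    have e2 : L.eraseIdx i = l₁.eraseIdx i ++ a :: b :: l₂ := by
      rw [hL, List.eraseIdx_append_of_lt_length hc]
    have e3 : L'.eraseIdx i = l₁.eraseIdx i ++ b :: a :: l₂ := by
      rw [hL', List.eraseIdx_append_of_lt_length hc]
    rw [e2] at hlast hlenE hndE
    rw [e1, e2, e3, hχ _ _ a b hlenE hndE hlast]
    simp
  · -- it is `a`
    have e1 : amax ρ L' = l₁.length + 1 := by
      apply h3 _ (by omega)
      apply hmax'
      rw [hc, hL, hL', List.getD_append_right _ _ _ _ le_rfl,
        List.getD_append_right _ _ _ _ (Nat.le_succ _)]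
      simp
    have e2 : L.eraseIdx i = l₁ ++ b :: l₂ := by
      rw [hc, hL, List.eraseIdx_append_of_length_le le_rfl]
      simp
    have e3 : L'.eraseIdx (l₁.length + 1) = l₁ ++ b :: l₂ := by
      rw [hL', List.eraseIdx_append_of_length_le (Nat.le_succ _)]
      simp
    rw [e1, e2, e3, hc]
    rcases Nat.mod_two_eq_zero_or_one (l₁.length + (k + 1 - 1)) with h | h
    · rw [show (l₁.length + 1 + (k + 1 - 1)) % 2 = 1 by omega, h]
      simp
    · rw [show (l₁.length + 1 + (k + 1 - 1)) % 2 = 0 by omega, h]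
      simp
  · rcases Nat.lt_or_ge i (l₁.length + 2) with hc2 | hc2
    · -- it is `b`
      have hc3 : i = l₁.length + 1 := by omega
      have e1 : amax ρ L' = l₁.length := by
        apply h3 _ (by omega)
        apply hmax'
        rw [hc3, hL, hL', List.getD_append_right _ _ _ _ le_rfl,
          List.getD_append_right _ _ _ _ (Nat.le_succ _)]
        simp
      have e2 : L.eraseIdx i = l₁ ++ a :: l₂ := by
        rw [hc3, hL, List.eraseIdx_append_of_length_le (Nat.le_succ _)]
        simp
      have e3 : L'.eraseIdx l₁.length = l₁ ++ a :: l₂ := by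
        rw [hL', List.eraseIdx_append_of_length_le le_rfl]
        simp
      rw [e1, e2, e3, hc3]
      rcases Nat.mod_two_eq_zero_or_one (l₁.length + (k + 1 - 1)) with h | h
      · rw [show (l₁.length + 1 + (k + 1 - 1)) % 2 = 1 by omega, h]
        simp
      · rw [show (l₁.length + 1 + (k + 1 - 1)) % 2 = 0 by omega, h]
        simp
    · -- it is in `l₂`
      obtain ⟨j, hj⟩ : ∃ j, i = l₁.length + (j + 2) := ⟨i - l₁.length - 2, by omega⟩
      have e1 : amax ρ L' = i := by
        apply h3 i (by omega)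
        apply hmax'
        rw [hj, hL, hL', List.getD_append_right _ _ _ _ (by omega),
          List.getD_append_right _ _ _ _ (by omega), Nat.add_sub_cancel_left]
        simp
      have e2 : L.eraseIdx i = l₁ ++ a :: b :: l₂.eraseIdx j := by
        rw [hj, hL, List.eraseIdx_append_of_length_le (by omega), Nat.add_sub_cancel_left]
        simp
      have e3 : L'.eraseIdx i = l₁ ++ b :: a :: l₂.eraseIdx j := by
        rw [hj, hL', List.eraseIdx_append_of_length_le (by omega), Nat.add_sub_cancel_left]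
        simp
      rw [e2] at hlast hlenE hndE
      rw [e1, e2, e3, hχ _ _ a b hlenE hndE hlast]
      simp

end Pool.Agent.Helper54.SP
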