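import Pool.Agent.Helper54.SP.StmtsW

set_option autoImplicit false

namespace Pool.Agent.Helper54.SP

open Pool.Agent.Helper54.Poly

section ec

variable {α : Type} [TEnc α]

theorem ec_amax {κ : α × ℕ → ℕ} (hκ : PT κ) {l : α → List ℕ} (hl : PT l) :
    PT (fun a => amax (fun p => κ (a, p)) (l a)) := by
  have h1 : PT (fun y : α × ((List ℕ × ℕ) × ℕ) => (y.2.2 :: y.2.1.1,
      if y.2.1.1.all (fun b => decide (κ (y.1, b) ≤ κ (y.1, y.2.2))) then 0 else y.2.1.2 + 1)) := by
    refine PT.pair (PT.lcons PT.id.snd.snd PT.id.snd.fst.fst) ?_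
    refine PT.ite ?_ (PT.const 0) (PT.succ PT.id.snd.fst.snd)
    have h2 : PT (fun z : (α × ((List ℕ × ℕ) × ℕ)) × ℕ =>
        decide (κ (z.1.1, z.2) ≤ κ (z.1.1, z.1.2.2))) :=
      PT.leN (hκ.comp (PT.id.fst.fst.pair PT.id.snd))
        (hκ.comp (PT.id.fst.fst.pair PT.id.fst.snd.snd))
    exact PT.all h2 (l := fun y : α × ((List ℕ × ℕ) × ℕ) => y.2.1.1) PT.id.snd.fst.fst
  obtain ⟨L, hL⟩ := hl.bound
  have h3 := PT.foldl_add (β := α) (σ := List ℕ × ℕ) (γ := ℕ) h1 (l := fun a => (l a).reverse)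
    (x := fun _ => ([], 0)) hl.reverse (PT.const ([], 0)) (L + 3) (by
      intro b s c hc
      have h4 : sz c ≤ sz (l b) := sz_mem (List.mem_reverse.1 hc)
      have h5 := hL b
      simp only [Polynomial.eval_add, Polynomial.eval_ofNat]
      rw [sz_pair, sz_cons]
      have h6 : sz s = sz s.1 + sz s.2 + 1 := sz_pair s.1 s.2
      have h7 : sz (if s.1.all (fun b_1 => decide (κ (b, b_1) ≤ κ (b, c))) then 0
          else s.2 + 1) ≤ sz s.2 + 2 := by
        split_ifs
        · rw [sz_nat, sz_nat]; omega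
        · rw [sz_nat, sz_nat]; omega
      omega)
  refine h3.snd.congr fun a => ?_
  have key : ∀ m : List ℕ, m.reverse.foldl (fun (s : List ℕ × ℕ) c => (c :: s.1,
      if s.1.all (fun b => decide (κ (a, b) ≤ κ (a, c))) then 0 else s.2 + 1)) ([], 0) =
      (m, amax (fun p => κ (a, p)) m) := by
    intro m
    rw [List.foldl_reverse]
    induction m with
    | nil => rfl
    | cons c m ih =>
      rw [List.foldr_cons, ih]
      rfl
  exact congrArg Prod.snd (key (l a))

theorem ec_par {n : α → ℕ} (hn : PT n) : PT (fun a => decide (n a % 2 = 1)) := by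
  have h := PT.iterN (β := α) (α := Bool) (f := fun y => !y.2) (PT.not PT.id.snd) hn
    (PT.const false) 3 (by
      intro a k _
      simp only [Polynomial.eval_ofNat]
      exact sz_bool _)
  refine h.congr fun a => ?_
  have key : ∀ k : ℕ, (fun b : Bool => !b)^[k] false = decide (k % 2 = 1) := by
    intro k
    induction k with
    | zero => rfl
    | succ k ih =>
      rw [Function.iterate_succ_apply', ih]
      rcases Nat.mod_two_eq_zero_or_one k with h | h
      · rw [h, show (k + 1) % 2 = 1 by omega]; rfl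
      · rw [h, show (k + 1) % 2 = 0 by omega]; rfl
  exact key (n a)

theorem ec_xor {f g : α → Bool} (hf : PT f) (hg : PT g) : PT (fun a => xor (f a) (g a)) := by
  refine (PT.ite hf (PT.not hg) hg).congr fun a => ?_
  cases f a <;> cases g a <;> rfl

theorem ec_erase {n : α → ℕ} {l : α → List ℕ} (hn : PT n) (hl : PT l) :
    PT (fun a => (l a).eraseIdx (n a)) := by
  refine (PT.append (PT.take hn hl) (PT.drop (PT.succ hn) hl)).congr fun a => ?_
  rw [List.eraseIdx_eq_take_drop_succ]

end ec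

theorem st_EC (hES : ST_ES) (hER : ST_ER) : ST_EC := by
  intro m
  induction m with
  | zero =>
    intro α _ Γ nw l hΓ _ hl
    exact hES Γ l hΓ hl
  | succ m ih =>
    intro α _ Γ nw l hΓ hn hl
    have hκ : PT (fun z : α × ℕ => rho (Γ z.1) (nw z.1) m z.2) :=
      hER m (fun z : α × ℕ => Γ z.1) (fun z => nw z.1) (fun z => z.2)
        (hΓ.comp PT.id.fst) (hn.comp PT.id.fst) PT.id.snd
    have ha : PT (fun a => amax (rho (Γ a) (nw a) m) (l a)) := ec_amax hκ hl
    have hp : PT (fun a => decide ((amax (rho (Γ a) (nw a) m) (l a) + ((l a).length - 1)) % 2 = 1)) :=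
      ec_par (PT.add ha (PT.sub (PT.length hl) (PT.const 1)))
    have hr := ih Γ nw (fun a => (l a).eraseIdx (amax (rho (Γ a) (nw a) m) (l a))) hΓ hn
      (ec_erase ha hl)
    exact ec_xor hp hr

end Pool.Agent.Helper54.SP
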