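import Pool.Agent.Helper54.SP.StmtsW

set_option autoImplicit false

namespace Pool.Agent.Helper54.SP

open Pool.Agent.Helper54.Poly

section ew

variable {α : Type} [TEnc α]

theorem ew_lt {f : α → ℕ} (hf : PT f) (n : ℕ) : PT (fun a => decide (f a < n)) :=
  (PT.leN (PT.succ hf) (PT.const n)).congr fun a => by
    rw [Bool.eq_iff_iff, decide_eq_true_eq, decide_eq_true_eq]
    exact Nat.succ_le_iff

theorem ew_ks {q : α → List (ℕ × ℕ)} {i : α → ℕ} (hq : PT q) (hi : PT i) :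
    PT (fun a => ks (q a) (i a)) := (PT.getD hi hq (PT.const (0, 0))).fst

theorem ew_js {q : α → List (ℕ × ℕ)} {i : α → ℕ} (hq : PT q) (hi : PT i) :
    PT (fun a => js (q a) (i a)) := (PT.getD hi hq (PT.const (0, 0))).snd

theorem ew_tbs {K L l i : α → ℕ} (hK : PT K) (hL : PT L) (hl : PT l) (hi : PT i) :
    PT (fun a => tbs (K a) (L a) (l a) (i a)) := by
  have c : ∀ n : ℕ, PT (fun _ : α => n) := fun n => PT.const n
  refine (PT.ite (ew_lt hi 3)
    (PT.add (PT.mul (c 4) hK) (PT.mul (c 5) (PT.add (PT.mul (c 3) hl) hi)))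
    (PT.add (PT.add (PT.mul (c 4) hK) (PT.mul (c 15) hL))
      (PT.mul (c 5) (PT.add (PT.mul (c 2) hl) (PT.sub hi (c 3)))))).congr fun a => ?_
  unfold tbs
  simp only [decide_eq_true_eq]

theorem ew_pbs {K L l : α → ℕ} (hK : PT K) (hL : PT L) (hl : PT l) :
    PT (fun a => pbs (K a) (L a) (l a)) := by
  have c : ∀ n : ℕ, PT (fun _ : α => n) := fun n => PT.const n
  exact PT.add (PT.add (PT.mul (c 4) hK) (PT.mul (c 25) hL)) (PT.mul (c 8) hl)

theorem ew_gt {k : α → Bool} {c u u' a a' : α → ℕ} (hk : PT k) (hc : PT c) (hu : PT u)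
    (hu' : PT u') (ha : PT a) (ha' : PT a') :
    PT (fun x => ((k x, c x, u x, u' x, a x, a' x) : Gt)) :=
  hk.pair (hc.pair (hu.pair (hu'.pair (ha.pair ha'))))

theorem ew_gH {K L l i : α → ℕ} {q : α → List (ℕ × ℕ)} (hK : PT K) (hL : PT L) (hq : PT q)
    (hl : PT l) (hi : PT i) : PT (fun a => gH (K a) (L a) (q a) (l a) (i a)) := by
  have c : ∀ n : ℕ, PT (fun _ : α => n) := fun n => PT.const n
  exact ew_gt (PT.const true) (PT.add (PT.mul (c 5) hl) hi) (PT.mul (c 2) (ew_ks hq hi))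
    (PT.succ (PT.mul (c 2) (ew_ks hq hi))) (ew_tbs hK hL hl hi)
    (PT.add (ew_tbs hK hL hl hi) (c 2))

theorem ew_gG3 {K L l i : α → ℕ} (hK : PT K) (hL : PT L)
    (hl : PT l) (hi : PT i) : PT (fun a => gG3 (K a) (L a) (l a) (i a)) := by
  have c : ∀ n : ℕ, PT (fun _ : α => n) := fun n => PT.const n
  have ht := ew_tbs hK hL hl hi
  exact ew_gt (PT.const true) (PT.add (PT.mul (c 15) hL) (PT.add (PT.mul (c 5) hl) hi)) ht
    (PT.succ ht) (PT.add ht (c 2)) (PT.add ht (c 4))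

theorem ew_gG1 {K L l i : α → ℕ} {q : α → List (ℕ × ℕ)} (hK : PT K) (hL : PT L) (hq : PT q)
    (hl : PT l) (hi : PT i) : PT (fun a => gG1 (K a) (L a) (q a) (l a) (i a)) := by
  have c : ∀ n : ℕ, PT (fun _ : α => n) := fun n => PT.const n
  have ht := ew_tbs hK hL hl hi
  have hj := PT.add (PT.mul (c 2) hK) (PT.mul (c 2) (ew_js hq hi))
  exact ew_gt (PT.const false) (PT.add (PT.mul (c 5) hL) (PT.add (PT.mul (c 5) hl) hi)) hj
    (PT.succ hj) ht (PT.succ ht)

theorem ew_gG2 {K L l i : α → ℕ} {q : α → List (ℕ × ℕ)} (hK : PT K) (hL : PT L) (hq : PT q)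
    (hl : PT l) (hi : PT i) : PT (fun a => gG2 (K a) (L a) (q a) (l a) (i a)) := by
  have c : ∀ n : ℕ, PT (fun _ : α => n) := fun n => PT.const n
  have ht := ew_tbs hK hL hl hi
  have hj := PT.add (PT.mul (c 2) hK) (PT.mul (c 2) (ew_js hq hi))
  exact ew_gt (PT.const false) (PT.add (PT.mul (c 10) hL) (PT.add (PT.mul (c 5) hl) hi)) hj
    (PT.succ hj) (PT.add ht (c 2)) (PT.add ht (c 3))

theorem ew_gC {K L l i : α → ℕ} (hK : PT K) (hL : PT L)
    (hl : PT l) (hi : PT i) : PT (fun a => gC (K a) (L a) (l a) (i a)) := by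
  have c : ∀ n : ℕ, PT (fun _ : α => n) := fun n => PT.const n
  have ht := ew_tbs hK hL hl hi
  have hp := ew_pbs hK hL hl
  have hc := PT.add (PT.mul (c 20) hL) (PT.add (PT.mul (c 6) hl) hi)
  refine (PT.ite (ew_lt hi 3)
    (ew_gt (PT.const false) hc (PT.add ht (c 3)) (PT.add ht (c 4)) (PT.add hp hi)
      (PT.succ (PT.add hp hi)))
    (PT.ite (ew_lt hi 5)
      (ew_gt (PT.const false) hc (PT.add ht (c 3)) (PT.add ht (c 4))
        (PT.add hp (PT.add hi (c 2))) (PT.add hp (PT.add hi (c 3))))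
      (ew_gt (PT.const false) hc (PT.add hp (c 5)) (PT.add hp (c 7)) hp
        (PT.add hp (c 4))))).congr fun a => ?_
  unfold gC
  simp only [decide_eq_true_eq]

theorem ew_block {K : α → ℕ} {Q : α → List (List (ℕ × ℕ))} (hK : PT K) (hQ : PT Q) (b : ℕ)
    (g : ℕ → ℕ → List (ℕ × ℕ) → ℕ → ℕ → Gt)
    (hg : PT (fun z : (α × ℕ) × ℕ => g (K z.1.1) (Q z.1.1).length ((Q z.1.1).getD z.1.2 [])
      z.1.2 z.2)) :
    PT (fun a => (List.range (Q a).length).flatMap fun l => (List.range b).map fun i =>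
      g (K a) (Q a).length ((Q a).getD l []) l i) := by
  have h1 : PT (fun y : α × ℕ => (List.range b).map fun i =>
      g (K y.1) (Q y.1).length ((Q y.1).getD y.2 []) y.2 i) :=
    PT.map hg (l := fun _ : α × ℕ => List.range b) (PT.const (List.range b))
  exact PT.flatMap h1 (PT.range (PT.length hQ))

end ew

theorem st_EW : ST_EW := by
  intro α _ K Q hK hQ
  have c : ∀ n : ℕ, PT (fun _ : α => n) := fun n => PT.const n
  have hK' : PT (fun z : (α × ℕ) × ℕ => K z.1.1) := hK.comp PT.id.fst.fst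
  have hL' : PT (fun z : (α × ℕ) × ℕ => (Q z.1.1).length) := (PT.length hQ).comp PT.id.fst.fst
  have hq' : PT (fun z : (α × ℕ) × ℕ => (Q z.1.1).getD z.1.2 []) :=
    PT.getD PT.id.fst.snd (hQ.comp PT.id.fst.fst) (PT.const [])
  have hl' : PT (fun z : (α × ℕ) × ℕ => z.1.2) := PT.id.fst.snd
  have hi' : PT (fun z : (α × ℕ) × ℕ => z.2) := PT.id.snd
  refine ⟨?_, PT.add (PT.mul (c 4) hK) (PT.mul (c 33) (PT.length hQ))⟩
  have b1 := ew_block hK hQ 5 (fun K L q l i => gH K L q l i) (ew_gH hK' hL' hq' hl' hi')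
  have b2 := ew_block hK hQ 5 (fun K L _ l i => gG3 K L l i) (ew_gG3 hK' hL' hl' hi')
  have b3 := ew_block hK hQ 5 (fun K L q l i => gG1 K L q l i) (ew_gG1 hK' hL' hq' hl' hi')
  have b4 := ew_block hK hQ 5 (fun K L q l i => gG2 K L q l i) (ew_gG2 hK' hL' hq' hl' hi')
  have b5 := ew_block hK hQ 6 (fun K L _ l i => gC K L l i) (ew_gC hK' hL' hl' hi')
  exact PT.append b1 (PT.append b2 (PT.append b3 (PT.append b4 b5)))

end Pool.Agent.Helper54.SP
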