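import Pool.Agent.Helper54.SP.Stmts

set_option autoImplicit false

namespace Pool.Agent.Helper54.SP

/-- the true gates come first -/
theorem key_count : ∀ (Γ : List Gt), (∀ s t, s < t → t < Γ.length →
    (Γ.getD t (false, 0, 0, 0, 0, 0)).k = true → (Γ.getD s (false, 0, 0, 0, 0, 0)).k = true) →
    ∀ s, s < Γ.length → ((Γ.getD s (false, 0, 0, 0, 0, 0)).k = true ↔
      s < Γ.countP fun g => g.1)
  | [], _, s, hs => by simp at hs
  | g :: Γ, hsort, s, hs => by
    have hsort' : ∀ s t, s < t → t < Γ.length →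
        (Γ.getD t (false, 0, 0, 0, 0, 0)).k = true →
        (Γ.getD s (false, 0, 0, 0, 0, 0)).k = true := by
      intro s t hst ht h
      have := hsort (s + 1) (t + 1) (by omega) (by simpa using ht)
      simpa using this h
    by_cases hg : g.1 = true
    · rw [List.countP_cons_of_pos hg]
      cases s with
      | zero =>
        constructor
        · intro _; omega
        · intro _; simpa [Gt.k] using hg
      | succ s =>
        have := key_count Γ hsort' s (by simpa using hs)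
        rw [List.getD_cons_succ, this]
        exact Nat.succ_lt_succ_iff.symm
    · have hall : ∀ t, t < (g :: Γ).length →
          ((g :: Γ).getD t (false, 0, 0, 0, 0, 0)).k = false := by
        intro t ht
        cases t with
        | zero => simpa [Gt.k] using hg
        | succ t =>
          by_contra hcon
          have hcon : ((g :: Γ).getD (t + 1) (false, 0, 0, 0, 0, 0)).k = true := by
            simpa using hcon
          have := hsort 0 (t + 1) (by omega) ht hcon
          simp [Gt.k] at this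
          exact hg this
      have hc : (g :: Γ).countP (fun g => g.1) = 0 := by
        rw [List.countP_eq_zero]
        intro x hx
        obtain ⟨t, ht, rfl⟩ := List.getElem_of_mem hx
        have := hall t ht
        rw [List.getD_eq_getElem _ _ ht] at this
        simp only [Gt.k] at this
        rw [this]
        simp
      rw [hc, hall s hs]
      simp

theorem key_rk (Γ : List Gt) (nw : ℕ) (hK : ST_KINJ) (hW : WF Γ nw) (c : ℕ) :
    (∀ p q, p < NN Γ → q < NN Γ → rk Γ nw c p = rk Γ nw c q → p = q) ∧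
    ∀ p, p < NN Γ → rk Γ nw c p ≤ BG Γ nw + 1 := by
  obtain ⟨h1, h2, h3, h4, h5⟩ := hK Γ nw hW
  by_cases hc1 : c = 1
  · subst hc1
    have hcl : ∀ p, p < NN Γ → (p = 0 ∧ rk Γ nw 1 p = BG Γ nw) ∨ (p = 1 ∧ rk Γ nw 1 p = 0) ∨
        (2 ≤ p ∧ rk Γ nw 1 p = 1 + yk Γ p ∧ yk Γ p + 5 < BG Γ nw) := by
      intro p hp
      rcases Nat.lt_or_ge p 2 with h | h
      · have : p = 0 ∨ p = 1 := by omega
        rcases this with rfl | rfl
        · exact Or.inl ⟨rfl, by simp [rk]⟩
        · exact Or.inr (Or.inl ⟨rfl, by simp [rk]⟩)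
      · refine Or.inr (Or.inr ⟨h, ?_, (h4 p hp).2.1⟩)
        simp only [rk]
        rw [if_pos trivial, if_neg (by omega), if_neg (by omega)]
    have hBG : 100 ≤ BG Γ nw := by
      unfold BG
      omega
    constructor
    · intro p q hp hq h
      rcases hcl p hp with ⟨a, a'⟩ | ⟨a, a'⟩ | ⟨a, a', a''⟩ <;>
      rcases hcl q hq with ⟨b, b'⟩ | ⟨b, b'⟩ | ⟨b, b', b''⟩ <;>
      rw [a', b'] at h <;>
      first
      | omega
      | exact h2 p q a b hp hq (by omega)
    · intro p hp
      rcases hcl p hp with ⟨a, a'⟩ | ⟨a, a'⟩ | ⟨a, a', a''⟩ <;> omega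
  · by_cases hc2 : c = 2
    · subst hc2
      set n1 := Γ.countP (fun g => g.1) with hn1
      have hsk : ∀ p, 8 * (grp p - 1) ≤ sk Γ p ∧ sk Γ p ≤ 8 * (grp p - 1) + 7 := by
        intro p
        unfold sk
        omega
      have htrue : ∀ p, 4 ≤ p → p < NN Γ → (gat Γ p).k = true → 1 + sk Γ p ≤ 8 * n1 := by
        intro p hp hpN hk
        have hlen := (h5 p hp hpN).2.2.2
        have := (key_count Γ hW.sorted _ hlen).1 hk
        have := (hsk p).2
        omega
      have hfalse : ∀ p, 4 ≤ p → p < NN Γ → (gat Γ p).k = false → 8 * n1 ≤ sk Γ p := by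
        intro p hp hpN hk
        have hlen := (h5 p hp hpN).2.2.2
        have : ¬ grp p - 1 < n1 := by
          intro h
          have := (key_count Γ hW.sorted _ hlen).2 h
          rw [gat, this] at hk
          exact absurd hk (by simp)
        have := (hsk p).1
        omega
      -- values
      have v0 : rk Γ nw 2 0 = BG Γ nw := by simp [rk]
      have v1 : rk Γ nw 2 1 = BG Γ nw + 1 := by simp [rk]
      have v2 : rk Γ nw 2 2 = 1 + 8 * n1 := by simp [rk, hn1]
      have v3 : rk Γ nw 2 3 = 0 := by simp [rk]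
      have vt : ∀ p, 4 ≤ p → (gat Γ p).k = true → rk Γ nw 2 p = 1 + sk Γ p := by
        intro p hp hk
        simp only [rk]
        rw [if_neg (by omega), if_pos trivial, if_neg (by omega), if_neg (by omega),
          if_neg (by omega), if_neg (by omega), if_pos hk]
      have vf : ∀ p, 4 ≤ p → (gat Γ p).k = false → rk Γ nw 2 p = 2 + sk Γ p := by
        intro p hp hk
        simp only [rk]
        rw [if_neg (by omega), if_pos trivial, if_neg (by omega), if_neg (by omega),
          if_neg (by omega), if_neg (by omega), if_neg (by rw [hk]; simp)]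
      have hn1le : n1 ≤ Γ.length := List.countP_le_length
      have hBG : 16 * Γ.length + 100 ≤ BG Γ nw := by
        unfold BG
        omega
      have hskB : ∀ p, p < NN Γ → sk Γ p + 5 < BG Γ nw := fun p hp => (h4 p hp).2.2
      have hcl : ∀ p, p < NN Γ → (p = 0 ∧ rk Γ nw 2 p = BG Γ nw) ∨
          (p = 1 ∧ rk Γ nw 2 p = BG Γ nw + 1) ∨ (p = 2 ∧ rk Γ nw 2 p = 1 + 8 * n1) ∨
          (p = 3 ∧ rk Γ nw 2 p = 0) ∨
          (4 ≤ p ∧ rk Γ nw 2 p = 1 + sk Γ p ∧ 1 + sk Γ p ≤ 8 * n1 ∧ sk Γ p + 5 < BG Γ nw) ∨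
          (4 ≤ p ∧ rk Γ nw 2 p = 2 + sk Γ p ∧ 8 * n1 ≤ sk Γ p ∧ sk Γ p + 5 < BG Γ nw) := by
        intro p hp
        rcases Nat.lt_or_ge p 4 with h | h
        · have : p = 0 ∨ p = 1 ∨ p = 2 ∨ p = 3 := by omega
          rcases this with rfl | rfl | rfl | rfl
          · exact Or.inl ⟨rfl, v0⟩
          · exact Or.inr (Or.inl ⟨rfl, v1⟩)
          · exact Or.inr (Or.inr (Or.inl ⟨rfl, v2⟩))
          · exact Or.inr (Or.inr (Or.inr (Or.inl ⟨rfl, v3⟩)))
        · cases hk : (gat Γ p).k with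
          | true =>
            exact Or.inr (Or.inr (Or.inr (Or.inr (Or.inl
              ⟨h, vt p h hk, htrue p h hp hk, hskB p hp⟩))))
          | false =>
            exact Or.inr (Or.inr (Or.inr (Or.inr (Or.inr
              ⟨h, vf p h hk, hfalse p h hp hk, hskB p hp⟩))))
      constructor
      · intro p q hp hq h
        rcases hcl p hp with ⟨a, a'⟩ | ⟨a, a'⟩ | ⟨a, a'⟩ | ⟨a, a'⟩ | ⟨a, a', a'', a'''⟩ |
          ⟨a, a', a'', a'''⟩ <;>
        rcases hcl q hq with ⟨b, b'⟩ | ⟨b, b'⟩ | ⟨b, b'⟩ | ⟨b, b'⟩ | ⟨b, b', b'', b'''⟩ |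
          ⟨b, b', b'', b'''⟩ <;>
        rw [a', b'] at h <;>
        first
        | omega
        | exact h3 p q a b hp hq (by omega)
      · intro p hp
        rcases hcl p hp with ⟨a, a'⟩ | ⟨a, a'⟩ | ⟨a, a'⟩ | ⟨a, a'⟩ | ⟨a, a', a'', a'''⟩ |
          ⟨a, a', a'', a'''⟩ <;> omega
    · have hcl : ∀ p, p < NN Γ → (p = 0 ∧ rk Γ nw c p = 0) ∨ (p = 1 ∧ rk Γ nw c p = BG Γ nw) ∨
          (2 ≤ p ∧ rk Γ nw c p = 1 + xk p ∧ xk p + 5 < BG Γ nw) := by
        intro p hp
        rcases Nat.lt_or_ge p 2 with h | h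
        · have : p = 0 ∨ p = 1 := by omega
          rcases this with rfl | rfl
          · exact Or.inl ⟨rfl, by simp only [rk, if_neg hc1, if_neg hc2, if_true]⟩
          · refine Or.inr (Or.inl ⟨rfl, ?_⟩)
            simp only [rk, if_neg hc1, if_neg hc2]
            rw [if_neg (by omega), if_pos trivial]
        · refine Or.inr (Or.inr ⟨h, ?_, (h4 p hp).1⟩)
          simp only [rk, if_neg hc1, if_neg hc2]
          rw [if_neg (by omega), if_neg (by omega)]
      have hBG : 100 ≤ BG Γ nw := by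
        unfold BG
        omega
      constructor
      · intro p q hp hq h
        rcases hcl p hp with ⟨a, a'⟩ | ⟨a, a'⟩ | ⟨a, a', a''⟩ <;>
        rcases hcl q hq with ⟨b, b'⟩ | ⟨b, b'⟩ | ⟨b, b', b''⟩ <;>
        rw [a', b'] at h <;>
        first
        | omega
        | exact h1 p q a b hp hq (by omega)
      · intro p hp
        rcases hcl p hp with ⟨a, a'⟩ | ⟨a, a'⟩ | ⟨a, a', a''⟩ <;> omega

theorem st_KEY (hK : ST_KINJ) : ST_KEY := by
  intro Γ nw m hW c _
  obtain ⟨h1, h2⟩ := key_rk Γ nw hK hW c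
  have va : ∀ p, p < NN Γ → rho Γ nw c p = c + rk Γ nw c p := by
    intro p hp
    simp only [rho, if_pos hp]
  have vb : rho Γ nw c (NN Γ + c) = c + BG Γ nw + 5 := by
    simp only [rho]
    rw [if_neg (by omega), if_pos trivial]
  have vc : ∀ p, NN Γ ≤ p → p < NN Γ + c → rho Γ nw c p = p - NN Γ := by
    intro p hp hp'
    simp only [rho]
    rw [if_neg (by omega), if_neg (by omega)]
  have hcl : ∀ p, p ≤ NN Γ + c →
      (p < NN Γ ∧ rho Γ nw c p = c + rk Γ nw c p ∧ rk Γ nw c p ≤ BG Γ nw + 1) ∨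
      (p = NN Γ + c ∧ rho Γ nw c p = c + BG Γ nw + 5) ∨
      (NN Γ ≤ p ∧ p < NN Γ + c ∧ rho Γ nw c p = p - NN Γ) := by
    intro p hp
    rcases Nat.lt_or_ge p (NN Γ) with h | h
    · exact Or.inl ⟨h, va p h, h2 p h⟩
    · rcases Nat.lt_or_ge p (NN Γ + c) with h' | h'
      · exact Or.inr (Or.inr ⟨h, h', vc p h h'⟩)
      · have : p = NN Γ + c := by omega
        subst this
        exact Or.inr (Or.inl ⟨rfl, vb⟩)
  refine ⟨?_, ?_, ?_⟩
  · intro i j hi hj h
    rcases hcl i hi with ⟨a, a', a''⟩ | ⟨a, a'⟩ | ⟨a, a', a''⟩ <;>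
    rcases hcl j hj with ⟨b, b', b''⟩ | ⟨b, b'⟩ | ⟨b, b', b''⟩
    · rw [a', b'] at h
      exact h1 i j a b (by omega)
    all_goals omega
  · intro i hi
    rcases hcl i hi.le with ⟨a, a', a''⟩ | ⟨a, a'⟩ | ⟨a, a', a''⟩ <;> rw [vb] <;> omega
  · intro i j hi hj hj'
    rw [va i hi, vc j hj hj']
    omega

end Pool.Agent.Helper54.SP
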