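import Pool.Agent.Helper54.SP.StmtsW

set_option autoImplicit false

namespace Pool.Agent.Helper54.SP

theorem wmem_len {α : Type} (L b : ℕ) (f : ℕ → ℕ → α) :
    ((List.range L).flatMap fun l => (List.range b).map (f l)).length = b * L := by
  induction L with
  | zero => simp
  | succ L ih =>
    rw [List.range_succ, List.flatMap_append, List.length_append, ih]
    simp [Nat.mul_succ]

theorem wmem_get {α : Type} (d : α) (L b : ℕ) (f : ℕ → ℕ → α) (l i : ℕ) (hl : l < L)
    (hi : i < b) :
    ((List.range L).flatMap fun l => (List.range b).map (f l)).getD (b * l + i) d = f l i := by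
  induction L with
  | zero => omega
  | succ L ih =>
    rw [List.range_succ, List.flatMap_append]
    have hlen := wmem_len L b f
    rcases Nat.lt_succ_iff_lt_or_eq.1 hl with h | h
    · rw [List.getD_append]
      · exact ih h
      · rw [hlen]
        have : b * (l + 1) ≤ b * L := Nat.mul_le_mul_left b h
        rw [Nat.mul_succ] at this
        omega
    · subst h
      rw [List.getD_append_right _ _ _ _ (by rw [hlen]; omega), hlen, Nat.add_sub_cancel_left]
      simp [List.getD_eq_getElem?_getD, hi]

theorem st_WMEM : ST_WMEM := by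
  intro K Q
  set L := Q.length with hL
  set B1 := (List.range L).flatMap fun l => (List.range 5).map fun i => gH K L (Q.getD l []) l i
    with hB1
  set B2 := (List.range L).flatMap fun l => (List.range 5).map fun i => gG3 K L l i with hB2
  set B3 := (List.range L).flatMap fun l => (List.range 5).map fun i => gG1 K L (Q.getD l []) l i
    with hB3
  set B4 := (List.range L).flatMap fun l => (List.range 5).map fun i => gG2 K L (Q.getD l []) l i
    with hB4
  set B5 := (List.range L).flatMap fun l => (List.range 6).map fun i => gC K L l i with hB5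
  have hW : wiring K Q = B1 ++ (B2 ++ (B3 ++ (B4 ++ B5))) := rfl
  have l1 : B1.length = 5 * L := wmem_len L 5 _
  have l2 : B2.length = 5 * L := wmem_len L 5 _
  have l3 : B3.length = 5 * L := wmem_len L 5 _
  have l4 : B4.length = 5 * L := wmem_len L 5 _
  have l5 : B5.length = 6 * L := wmem_len L 6 _
  rw [hW]
  refine ⟨?_, ?_, ?_, ?_⟩
  · simp only [List.length_append, l1, l2, l3, l4, l5]
    ring
  · intro l i hl hi
    have hlt : 5 * l + i < 5 * L := by omega
    refine ⟨?_, ?_, ?_, ?_⟩
    · rw [List.getD_append _ _ _ _ (by omega)]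
      exact wmem_get _ L 5 _ l i hl hi
    · rw [List.getD_append_right _ _ _ _ (by omega), l1,
        show 5 * L + (5 * l + i) - 5 * L = 5 * l + i by omega,
        List.getD_append _ _ _ _ (by omega)]
      exact wmem_get _ L 5 _ l i hl hi
    · rw [List.getD_append_right _ _ _ _ (by omega), l1,
        List.getD_append_right _ _ _ _ (by omega), l2,
        show 10 * L + (5 * l + i) - 5 * L - 5 * L = 5 * l + i by omega,
        List.getD_append _ _ _ _ (by omega)]
      exact wmem_get _ L 5 _ l i hl hi
    · rw [List.getD_append_right _ _ _ _ (by omega), l1,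
        List.getD_append_right _ _ _ _ (by omega), l2,
        List.getD_append_right _ _ _ _ (by omega), l3,
        show 15 * L + (5 * l + i) - 5 * L - 5 * L - 5 * L = 5 * l + i by omega,
        List.getD_append _ _ _ _ (by omega)]
      exact wmem_get _ L 5 _ l i hl hi
  · intro l i hl hi
    rw [List.getD_append_right _ _ _ _ (by omega), l1,
      List.getD_append_right _ _ _ _ (by omega), l2,
      List.getD_append_right _ _ _ _ (by omega), l3,
      List.getD_append_right _ _ _ _ (by omega), l4,
      show 20 * L + (6 * l + i) - 5 * L - 5 * L - 5 * L - 5 * L = 6 * l + i by omega]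
    exact wmem_get _ L 6 _ l i hl hi
  · intro g
    simp only [hB1, hB2, hB3, hB4, hB5, List.mem_append, List.mem_flatMap, List.mem_map,
      List.mem_range]
    constructor
    · rintro (⟨l, hl, i, hi, h⟩ | ⟨l, hl, i, hi, h⟩ | ⟨l, hl, i, hi, h⟩ | ⟨l, hl, i, hi, h⟩ |
        ⟨l, hl, i, hi, h⟩)
      · exact ⟨l, hl, Or.inl ⟨i, hi, Or.inl h.symm⟩⟩
      · exact ⟨l, hl, Or.inl ⟨i, hi, Or.inr (Or.inl h.symm)⟩⟩
      · exact ⟨l, hl, Or.inl ⟨i, hi, Or.inr (Or.inr (Or.inl h.symm))⟩⟩
      · exact ⟨l, hl, Or.inl ⟨i, hi, Or.inr (Or.inr (Or.inr h.symm))⟩⟩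
      · exact ⟨l, hl, Or.inr ⟨i, hi, h.symm⟩⟩
    · rintro ⟨l, hl, ⟨i, hi, h | h | h | h⟩ | ⟨i, hi, h⟩⟩
      · exact Or.inl ⟨l, hl, i, hi, h.symm⟩
      · exact Or.inr (Or.inl ⟨l, hl, i, hi, h.symm⟩)
      · exact Or.inr (Or.inr (Or.inl ⟨l, hl, i, hi, h.symm⟩))
      · exact Or.inr (Or.inr (Or.inr (Or.inl ⟨l, hl, i, hi, h.symm⟩)))
      · exact Or.inr (Or.inr (Or.inr (Or.inr ⟨l, hl, i, hi, h.symm⟩)))

end Pool.Agent.Helper54.SP
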